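import Pool.Agent.H247.FG.Stm
import Pool.Graph.R_seed8.Y504.CO.F2c
import Pool.Graph.R_seed8.Y930.CO.HD
import Pool.Graph.R_seed8.TH80.OMS.Push

/-!
# Fast growth: creation of many hyperbolic periodic points near a nonhyperbolic one
-/

set_option autoImplicit false
set_option linter.unusedSectionVars false

open scoped Manifold ContDiff Topology
open Filter Set Metric

universe u

namespace Pool.Agent.H247.FG.Cre

open Pool.Agent.H718R2.G Pool.Agent.TH80.OMS Pool.Agent.Y504.CO Pool.Agent.Y504.CO.F2c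
open Pool.Agent.H247.FG Pool.Agent.W564.SC

/-- the linear map is hyperbolic -/
def QHyp (n : ℕ) (A : V n →L[ℝ] V n) : Prop := NoBdd (fun _ => A)

/-- some power is a contraction -/
def QSink (n : ℕ) (A : V n →L[ℝ] V n) : Prop := ∃ l : ℕ, 1 ≤ l ∧ ‖A ^ l‖ < 1

/-- some power is an expansion -/
def QSrc (n : ℕ) (A : V n →L[ℝ] V n) : Prop :=
  ∃ l : ℕ, 1 ≤ l ∧ ∃ d : ℝ, 1 < d ∧ ∀ v, d * ‖v‖ ≤ ‖(A ^ l) v‖

section

variable {n : ℕ} {N : Type u} [TopologicalSpace N] [T2Space N] [ChartedSpace (V n) N]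
  [IsManifold (𝓡 n) ∞ N]

theorem inj_deriv {r : ℕ∞} (hr : 1 ≤ r) (f : DiffM n N r) {p : N} {m : ℕ} (hpm : f^[m] p = p)
    {χ : OpenPartialHomeomorph N (V n)} (hχ : χ ∈ IsManifold.maximalAtlas (𝓡 n) ∞ N)
    (hp : p ∈ χ.source) :
    Function.Injective (fderiv ℝ (fun v => χ (f^[m] (χ.symm v))) (χ p)) := by
  obtain ⟨a, ha⟩ : ∃ a, a = χ p := ⟨_, rfl⟩
  set R : V n → V n := fun v => χ (f^[m] (χ.symm v)) with hR
  have hsa : χ.symm a = p := by rw [ha]; exact χ.left_inv hp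
  have hRa : R a = a := by
    simp only [hR]
    rw [hsa, hpm, ha]
  have hRc : ContDiffAt ℝ 1 R a := by
    rw [ha]
    exact chart_c1 hr f m hχ hp (by rw [hpm]; exact hp)
  have hg : ContDiffAt ℝ 1 (fun v : V n => χ (f.symm^[m] (χ.symm v))) a := by
    rw [ha]
    refine chart_c1 hr f.symm m hχ hp ?_
    have h1 : f.symm^[m] p = p := by
      conv_lhs => rw [← hpm]
      exact (Function.LeftInverse.iterate f.symm_apply_apply m) p
    rw [h1]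
    exact hp
  have h2 : (fun v : V n => χ (f.symm^[m] (χ.symm (R v)))) =ᶠ[𝓝 a] id := by
    have hs := tendsto_symm hp
    rw [← ha] at hs
    have h3 : Tendsto (fun v => f^[m] (χ.symm v)) (𝓝 a) (𝓝 (f^[m] p)) :=
      ((iter_cont f m).tendsto p).comp hs
    rw [hpm] at h3
    filter_upwards [h3.eventually (χ.open_source.mem_nhds hp),
      χ.open_target.mem_nhds (show a ∈ χ.target by rw [ha]; exact χ.map_source hp)] with v a2 a1
    simp only [hR, id]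
    rw [χ.left_inv a2, (Function.LeftInverse.iterate f.symm_apply_apply m) (χ.symm v),
      χ.right_inv a1]
  have h3 : HasFDerivAt R (fderiv ℝ R a) a := (hRc.differentiableAt (by norm_num)).hasFDerivAt
  have h4 : HasFDerivAt (fun v : V n => χ (f.symm^[m] (χ.symm v)))
      (fderiv ℝ (fun v : V n => χ (f.symm^[m] (χ.symm v))) a) (R a) := by
    rw [hRa]
    exact (hg.differentiableAt (by norm_num)).hasFDerivAt
  have h5 := HasFDerivAt.comp (g := fun v : V n => χ (f.symm^[m] (χ.symm v))) (f := R) a h4 h3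
  have h6 : HasFDerivAt (id : V n → V n) _ a := h5.congr_of_eventuallyEq h2.symm
  have h7 := h6.unique (hasFDerivAt_id a)
  rw [← ha]
  intro x y hxy
  have h8 : ∀ w, (fderiv ℝ (fun v : V n => χ (f.symm^[m] (χ.symm v))) a) (fderiv ℝ R a w) = w := by
    intro w
    have := DFunLike.congr_fun h7 w
    simpa using this
  rw [← h8 x, ← h8 y, hxy]

/-- hyperbolicity at the least period is enough -/
theorem hypAt_of_least {r : ℕ∞} (hr : 1 ≤ r) (f : DiffM n N r) {p : N} {m : ℕ} (hm1 : 1 ≤ m)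
    (hpm : f^[m] p = p) (hmin : ∀ i, 0 < i → i < m → f^[i] p ≠ p)
    (h : ∀ ψ ∈ IsManifold.maximalAtlas (𝓡 n) ∞ N, p ∈ ψ.source →
      NoBdd (fun _ => fderiv ℝ (fun v => ψ (f^[m] (ψ.symm v))) (ψ p))) : HypAt n f p := by
  intro m' hm' hpm' ψ hψ hpψ
  have hdvd : m ∣ m' := by
    have h1 : f^[m' % m] p = p := by
      have h2 : f^[m' % m + m * (m' / m)] p = p := by rw [Nat.mod_add_div]; exact hpm'
      rw [Function.iterate_add_apply] at h2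
      have h3 : f^[m * (m' / m)] p = p := by
        have : Function.IsPeriodicPt f (m * (m' / m)) p := Function.IsPeriodicPt.mul_const hpm _
        exact this
      rwa [h3] at h2
    rcases Nat.eq_zero_or_pos (m' % m) with h0 | h0
    · exact Nat.dvd_of_mod_eq_zero h0
    · exact absurd h1 (hmin _ h0 (Nat.mod_lt _ (by omega)))
  obtain ⟨l, rfl⟩ := hdvd
  have hl1 : 1 ≤ l := by
    rcases Nat.eq_zero_or_pos l with h0 | h0
    · subst h0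
      simp at hm'
    · exact h0
  have hd : DifferentiableAt ℝ (fun v => ψ (f^[m] (ψ.symm v))) (ψ p) :=
    (chart_c1 hr f m hψ hpψ (by rw [hpm]; exact hpψ)).differentiableAt (by norm_num)
  rw [fderiv_mul f hpψ hpm hd.hasFDerivAt l]
  exact noBdd_pow (h ψ hψ hpψ) hl1

/-- the least period -/
theorem exists_least {f : N → N} {p : N} (hp : p ∈ Per f) : ∃ m : ℕ, 1 ≤ m ∧ f^[m] p = p ∧
    ∀ i, 0 < i → i < m → f^[i] p ≠ p := by
  obtain ⟨m', hm', hpm'⟩ := hp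
  refine ⟨Function.minimalPeriod f p, Function.IsPeriodicPt.minimalPeriod_pos hm' hpm',
    Function.isPeriodicPt_minimalPeriod f p, fun i hi him h => ?_⟩
  exact Function.not_isPeriodicPt_of_pos_of_lt_minimalPeriod hi.ne' him h

theorem pre (hEIG : S_EIG) (hNB : S_NB.{u}) {r : ℕ∞} (hr : 1 ≤ r) (f : DiffM n N r) {p : N} {m : ℕ}
    (hm1 : 1 ≤ m) (hpm : f^[m] p = p) (hmin : ∀ i, 0 < i → i < m → f^[i] p ≠ p)
    (hno : ¬ HypAt n f p) {O : Set N} (hO : IsOpen O) (hpO : p ∈ O) :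
    ∃ χ : OpenPartialHomeomorph N (V n), GoodChart n N χ p ∧ χ.source ⊆ O ∧
      EigOne (fderiv ℝ (fun v => χ (f^[m] (χ.symm v))) 0) ∧
      Function.Injective (fderiv ℝ (fun v => χ (f^[m] (χ.symm v))) 0) := by
  obtain ⟨χ, hχ, hχO⟩ := small_chart (n := n) p O hO hpO
  refine ⟨χ, hχ, hχO, ?_, ?_⟩
  · apply (hEIG n _).1
    intro hnb
    apply hno
    refine hypAt_of_least hr f hm1 hpm hmin fun ψ hψ hpψ => ?_
    refine hNB.2 n N r hr f m p hpm χ hχ.mem ψ hψ hχ.src hpψ ?_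
    rw [hχ.zero]
    exact hnb
  · have := inj_deriv hr f hpm hχ.mem hχ.src
    rwa [hχ.zero] at this

end

/-! ### linear algebra -/

theorem root {s : ℝ} (hs : 0 < s) {b : ℕ} (hb : 1 ≤ b) : ∃ c : ℝ, 0 < c ∧ c ^ b = s := by
  refine ⟨s ^ ((b : ℝ)⁻¹), Real.rpow_pos_of_pos hs _, ?_⟩
  exact Real.rpow_inv_natCast_pow hs.le (by omega)

theorem smul_pow_clm {n : ℕ} (c : ℝ) (A : V n →L[ℝ] V n) (l : ℕ) : (c • A) ^ l = c ^ l • A ^ l := by
  induction l with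
  | zero => simp
  | succ l ih =>
    rw [pow_succ, ih, pow_succ, pow_succ]
    ext1 v
    show c ^ l • (A ^ l) (c • A v) = (c ^ l * c) • (A ^ l) (A v)
    rw [map_smul, smul_smul]

theorem pow_aux {n : ℕ} (c : ℝ) (A : V n →L[ℝ] V n) (b l : ℕ) :
    (c ^ b • A ^ b) ^ l = ((c • A) ^ l) ^ b := by
  rw [← smul_pow_clm, ← pow_mul, ← pow_mul, mul_comm]

theorem qsink {n : ℕ} {A : V n →L[ℝ] V n} (h : SubOne A) {s : ℝ} (hs0 : 0 < s) (hs1 : s < 1) {b : ℕ}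
    (hb : 1 ≤ b) : QSink n (s • A ^ b) := by
  obtain ⟨c, hc0, hcb⟩ := root hs0 hb
  have hc1 : c < 1 := by
    by_contra hcon
    have := one_le_pow₀ (n := b) (not_lt.1 hcon)
    linarith
  obtain ⟨l, hl1, hl⟩ := h c hc0 hc1
  refine ⟨l, hl1, ?_⟩
  have e : (s • A ^ b) ^ l = ((c • A) ^ l) ^ b := by
    rw [← hcb]
    exact pow_aux c A b l
  rw [e]
  refine lt_of_le_of_lt (norm_pow_le' _ (by omega)) ?_
  exact pow_lt_one₀ (norm_nonneg _) hl (by omega)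

theorem qsrc {n : ℕ} {A : V n →L[ℝ] V n} (h : SupOne A) {s : ℝ} (hs1 : 1 < s) {b : ℕ}
    (hb : 1 ≤ b) : QSrc n (s • A ^ b) := by
  obtain ⟨c, hc0, hcb⟩ := root (by linarith : 0 < s) hb
  have hc1 : 1 < c := by
    by_contra hcon
    have := pow_le_one₀ (n := b) hc0.le (not_lt.1 hcon)
    linarith
  obtain ⟨l, hl1, d, hd, hl⟩ := h c hc1
  refine ⟨l, hl1, d, hd, ?_⟩
  have e : (s • A ^ b) ^ l = ((c • A) ^ l) ^ b := by
    rw [← hcb]
    exact pow_aux c A b l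
  rw [e]
  have key : ∀ j : ℕ, 1 ≤ j → ∀ v, d * ‖v‖ ≤ ‖(((c • A) ^ l) ^ j) v‖ := by
    intro j hj
    induction j, hj using Nat.le_induction with
    | base => intro v; rw [pow_one]; exact hl v
    | succ j hj ih =>
      intro v
      rw [pow_succ']
      show d * ‖v‖ ≤ ‖((c • A) ^ l) ((((c • A) ^ l) ^ j) v)‖
      have h1 := hl ((((c • A) ^ l) ^ j) v)
      have h2 := ih v
      have h3 : 0 ≤ ‖(((c • A) ^ l) ^ j) v‖ := norm_nonneg _
      have h4 : ‖(((c • A) ^ l) ^ j) v‖ ≤ d * ‖(((c • A) ^ l) ^ j) v‖ := by nlinarith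
      exact h2.trans (h4.trans h1)
  exact key b hb

/-- hyperbolic multiples -/
theorem exists_s (hEIG : S_EIG) {n : ℕ} (B : V n →L[ℝ] V n) {ε : ℝ} (hε : 0 < ε) :
    ∃ s : ℝ, |s - 1| < ε ∧ QHyp n (s • B) := by
  have hfin := Pool.Agent.Y930.CO.HD.finite_bad hEIG B
  have hinf : (Ioo 1 (1 + ε)).Infinite := Ioo_infinite (by linarith)
  obtain ⟨s, hs, hs'⟩ := hinf.exists_notMem_finite hfin
  refine ⟨s, ?_, ?_⟩
  · rw [abs_lt]
    constructor <;> linarith [hs.1, hs.2]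
  · by_contra hcon
    exact hs' ⟨by linarith [hs.1], hcon⟩

section

variable {N : Type u} [TopologicalSpace N] [T2Space N] [CompactSpace N]

/-- creation of hyperbolic periodic points, any dimension -/
theorem cre_hyp (hEIG : S_EIG) (hALG : S_ALG) (hNB : S_NB.{u}) (hL1 : S_L1.{u}) (hCR : S_CR.{u})
    {n : ℕ} [ChartedSpace (V n) N] [IsManifold (𝓡 n) ∞ N] (f : DiffM n N 1)
    (U : Set (DiffM n N 1)) (hU : IsOpen[strongTop n N 1] U) (hfU : f ∈ U) {p : N} {m : ℕ}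
    (hm1 : 1 ≤ m) (hpm : f^[m] p = p) (hmin : ∀ i, 0 < i → i < m → f^[i] p ≠ p)
    (hno : ¬ HypAt n f p) {O : Set N} (hO : IsOpen O) (hpO : p ∈ O) :
    ∃ m₀ : ℕ, m ≤ m₀ ∧ ∀ M : ℕ, ∃ g ∈ U, ∃ Z : Finset N, Z.card = M ∧ ∀ z ∈ Z, z ∈ O ∧
      PerQ n (QHyp n) g m₀ z := by
  obtain ⟨χ, hχ, hχO, hE, -⟩ := pre hEIG hNB le_rfl f hm1 hpm hmin hno hO hpO
  obtain ⟨κ, hκ, h1⟩ := hL1 n N 1 le_rfl f U hU hfU p m hm1 hpm hmin χ hχ.mem hχ.src
  rw [hχ.zero] at h1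
  obtain ⟨T, b₀, j, W, w₀, 𝒮, hT, hRes⟩ := hALG n _ hE κ hκ
  obtain ⟨f₁, hf₁U, hpm₁, hmin₁, hder⟩ := h1 T hT
  set A := (fderiv ℝ (fun v => χ (f^[m] (χ.symm v))) 0) ∘L (ContinuousLinearMap.id ℝ (V n) + T)
    with hA
  have hper : (A ^ b₀) w₀ = w₀ := by
    have h2 := hRes.pow w₀ hRes.w₀_mem
    rw [FunLike.coe_pow_eq_iterate]
    exact h2
  -- the least period of `w₀`
  have hex : ∃ b : ℕ, 1 ≤ b ∧ (A ^ b) w₀ = w₀ := ⟨b₀, hRes.b1, hper⟩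
  classical
  obtain ⟨hb1, hb⟩ := Nat.find_spec hex
  have hbmin : ∀ i, 0 < i → i < Nat.find hex → (A ^ i) w₀ ≠ w₀ := fun i hi hib h =>
    Nat.find_min hex hib ⟨hi, h⟩
  obtain ⟨ε, hε, hcr⟩ := hCR n N f₁ U hU hf₁U p m hm1 hpm₁ hmin₁ χ hχ A hder.symm w₀
    (Nat.find hex) hRes.w₀_ne hb1 hb hbmin
  obtain ⟨s, hs, hsQ⟩ := exists_s hEIG (A ^ (Nat.find hex)) hε
  refine ⟨m * Nat.find hex, Nat.le_mul_of_pos_right m hb1, fun M => ?_⟩
  obtain ⟨g, hg, Z, hZ, h⟩ := hcr s hs M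
  refine ⟨g, hg, Z, hZ, fun z hz => ?_⟩
  obtain ⟨a1, a2, a3, a4⟩ := h z hz
  refine ⟨hχO a3, Nat.mul_pos hm1 hb1, a1, a2, χ, hχ.mem, a3, ?_⟩
  rw [a4]
  exact hsQ

/-- creation of sinks or sources on surfaces -/
theorem cre_two (hEIG : S_EIG) (hNB : S_NB.{u}) (hAL : S_AL) (hL1 : S_L1.{u}) (hCR : S_CR.{u})
    [ChartedSpace (V 2) N] [IsManifold (𝓡 2) ∞ N] (f : DiffM 2 N 1)
    (U : Set (DiffM 2 N 1)) (hU : IsOpen[strongTop 2 N 1] U) (hfU : f ∈ U) {p : N} {m : ℕ}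
    (hm1 : 1 ≤ m) (hpm : f^[m] p = p) (hmin : ∀ i, 0 < i → i < m → f^[i] p ≠ p)
    (hno : ¬ HypAt 2 f p) {O : Set N} (hO : IsOpen O) (hpO : p ∈ O) :
    ∃ m₀ : ℕ, m ≤ m₀ ∧ ∃ Q : (V 2 →L[ℝ] V 2) → Prop, (Q = QSink 2 ∨ Q = QSrc 2) ∧
      ∀ M : ℕ, ∃ g ∈ U, ∃ Z : Finset N, Z.card = M ∧ ∀ z ∈ Z, z ∈ O ∧ PerQ 2 Q g m₀ z := by
  obtain ⟨χ, hχ, hχO, hE, hinj⟩ := pre hEIG hNB le_rfl f hm1 hpm hmin hno hO hpO
  obtain ⟨κ, hκ, h1⟩ := hL1 2 N 1 le_rfl f U hU hfU p m hm1 hpm hmin χ hχ.mem hχ.src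
  rw [hχ.zero] at h1
  obtain ⟨T, A, w₀, b, hT, hA, -, hw₀, hb1, hb, hbmin, hcase⟩ := hAL _ hinj hE κ hκ
  obtain ⟨f₁, hf₁U, hpm₁, hmin₁, hder⟩ := h1 T hT
  rw [← hA] at hder
  obtain ⟨ε, hε, hcr⟩ := hCR 2 N f₁ U hU hf₁U p m hm1 hpm₁ hmin₁ χ hχ A hder.symm w₀
    b hw₀ hb1 hb hbmin
  have hε2 : 0 < min ε (1 / 2) := lt_min hε (by norm_num)
  have hε3 : min ε (1 / 2) ≤ ε := min_le_left _ _
  have hε4 : min ε (1 / 2) ≤ 1 / 2 := min_le_right _ _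
  rcases hcase with hc | hc
  · refine ⟨m * b, Nat.le_mul_of_pos_right m hb1, QSink 2, Or.inl rfl, fun M => ?_⟩
    obtain ⟨g, hg, Z, hZ, h⟩ := hcr (1 - min ε (1 / 2) / 2) (by
      rw [abs_lt]; constructor <;> linarith) M
    refine ⟨g, hg, Z, hZ, fun z hz => ?_⟩
    obtain ⟨a1, a2, a3, a4⟩ := h z hz
    refine ⟨hχO a3, Nat.mul_pos hm1 hb1, a1, a2, χ, hχ.mem, a3, ?_⟩
    rw [a4]
    exact qsink hc (by linarith) (by linarith) hb1
  · refine ⟨m * b, Nat.le_mul_of_pos_right m hb1, QSrc 2, Or.inr rfl, fun M => ?_⟩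
    obtain ⟨g, hg, Z, hZ, h⟩ := hcr (1 + min ε (1 / 2) / 2) (by
      rw [abs_lt]; constructor <;> linarith) M
    refine ⟨g, hg, Z, hZ, fun z hz => ?_⟩
    obtain ⟨a1, a2, a3, a4⟩ := h z hz
    refine ⟨hχO a3, Nat.mul_pos hm1 hb1, a1, a2, χ, hχ.mem, a3, ?_⟩
    rw [a4]
    exact qsrc hc (by linarith) hb1

end

end Pool.Agent.H247.FG.Cre
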