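import Pool.Graph.R_seed8.Y504.CO.Stm7
import Pool.Graph.R_seed8.W564.SC.Defs

/-!
# Fast growth of the number of sinks or sources of `C¹`-generic surface diffeomorphisms:
statements of the parts
-/

set_option autoImplicit false

open scoped Manifold ContDiff Topology
open Filter Set Metric

universe u

namespace Pool.Agent.H247.FG

open Pool.Agent.H718R2.G Pool.Agent.TH80.OMS Pool.Agent.Y504.CO

/-- `x` has least period `k` under `g`, and the derivative of `g^k` at `x`, in some chart of the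
smooth structure, has the property `Q`. -/
def PerQ (n : ℕ) {N : Type u} [TopologicalSpace N] [ChartedSpace (V n) N]
    (Q : (V n →L[ℝ] V n) → Prop) (g : N → N) (k : ℕ) (x : N) : Prop :=
  1 ≤ k ∧ g^[k] x = x ∧ (∀ i, 0 < i → i < k → g^[i] x ≠ x) ∧
    ∃ ψ ∈ IsManifold.maximalAtlas (𝓡 n) ∞ N, x ∈ ψ.source ∧
      Q (fderiv ℝ (fun v => ψ (g^[k] (ψ.symm v))) (ψ x))

/-- OP: for an open condition `Q` which excludes the eigenvalue `1`, points as in `PerQ` persist. -/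
def S_OP : Prop :=
  ∀ (n : ℕ) (N : Type u) [TopologicalSpace N] [T2Space N] [CompactSpace N] [ChartedSpace (V n) N]
    [IsManifold (𝓡 n) ∞ N] (r : ℕ∞), 1 ≤ r → ∀ Q : (V n →L[ℝ] V n) → Prop,
    (∀ A, Q A → ∃ ε : ℝ, 0 < ε ∧ ∀ B, ‖B - A‖ < ε → Q B) →
    (∀ A, Q A → ∀ v, A v = v → v = 0) → ∀ (g : DiffM n N r) (k : ℕ) (x : N), PerQ n Q g k x →
    ∀ O : Set N, IsOpen O → x ∈ O → ∃ U : Set (DiffM n N r), IsOpen[strongTop n N r] U ∧ g ∈ U ∧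
      ∀ g' ∈ U, ∃ x' ∈ O, PerQ n Q g' k x'

/-- E1: smooth maps with prescribed 1-jets at finitely many points, supported in small balls. -/
def S_E1 : Prop :=
  ∀ n : ℕ, ∃ C : ℝ, 0 < C ∧ ∀ (J : Type) [Fintype J] (y : J → V n) (ρ : ℝ), 0 < ρ →
    (∀ i j, i ≠ j → 2 * ρ < ‖y i - y j‖) → ∀ (a : J → V n) (T : J → V n →L[ℝ] V n) (κ : ℝ),
    0 < κ → (∀ j, ‖a j‖ / ρ + ‖T j‖ ≤ κ) → ∃ u : V n → V n, ContDiff ℝ ∞ u ∧
      (∀ v, (∀ j, ρ ≤ ‖v - y j‖) → u v = 0) ∧ (∀ j, u (y j) = a j) ∧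
      (∀ j, HasFDerivAt u (T j) (y j)) ∧ (∀ v, ‖u v‖ ≤ κ * ρ) ∧ ∀ v, ‖fderiv ℝ u v‖ ≤ C * κ

/-- E2: a `C¹`-small perturbation `v ↦ R v + u (R v)` of a map `R` fixing `0`, whose derivative `A`
has a vector `w₀` of least period `b`, has `M` periodic orbits of least period `b`, with
derivatives `s • A`, `A`, ..., `A`. -/
def S_E2 : Prop :=
  ∀ (n : ℕ) (κ : ℝ), 0 < κ → ∃ ε : ℝ, 0 < ε ∧ ∀ R : V n → V n, R 0 = 0 → ContDiffAt ℝ 1 R 0 →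
    ∀ A : V n →L[ℝ] V n, A = fderiv ℝ R 0 → Function.Injective A → ∀ (w₀ : V n) (b : ℕ),
    w₀ ≠ 0 → 1 ≤ b → (A ^ b) w₀ = w₀ → (∀ i, 0 < i → i < b → (A ^ i) w₀ ≠ w₀) →
    ∀ s : ℝ, |s - 1| < ε → ∀ r₀ : ℝ, 0 < r₀ → ∀ M : ℕ, ∃ (u : V n → V n) (t : Fin M → ℝ),
      Pool.Agent.W564.SC.Small n 1 κ u ∧ (∀ v, r₀ ≤ ‖v‖ → u v = 0) ∧
      Function.Injective t ∧ (∀ i, 0 < t i) ∧
      ∀ i, ∀ l < b, ‖(A ^ l) (t i • w₀)‖ < r₀ ∧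
        R ((A ^ l) (t i • w₀)) + u (R ((A ^ l) (t i • w₀))) = (A ^ (l + 1)) (t i • w₀) ∧
        HasFDerivAt (fun v => R v + u (R v)) ((if l = 0 then s else 1) • A) ((A ^ l) (t i • w₀))

/-- all powers of multiples `c A`, `c < 1`, are eventually contractions -/
def SubOne {n : ℕ} (A : V n →L[ℝ] V n) : Prop :=
  ∀ c : ℝ, 0 < c → c < 1 → ∃ l : ℕ, 1 ≤ l ∧ ‖(c • A) ^ l‖ < 1

/-- all powers of multiples `c A`, `c > 1`, are eventually expansions -/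
def SupOne {n : ℕ} (A : V n →L[ℝ] V n) : Prop :=
  ∀ c : ℝ, 1 < c → ∃ l : ℕ, 1 ≤ l ∧ ∃ d : ℝ, 1 < d ∧ ∀ v, d * ‖v‖ ≤ ‖((c • A) ^ l) v‖

/-- AL: an invertible `2 × 2` matrix with an eigenvalue of modulus one is near a matrix with a
periodic vector and either no eigenvalue outside the closed unit disc, or none inside the open one. -/
def S_AL : Prop :=
  ∀ A₀ : V 2 →L[ℝ] V 2, Function.Injective A₀ → EigOne A₀ → ∀ ε : ℝ, 0 < ε →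
    ∃ (T : V 2 →L[ℝ] V 2) (A : V 2 →L[ℝ] V 2) (w₀ : V 2) (b : ℕ), ‖T‖ < ε ∧
      A = A₀ ∘L (ContinuousLinearMap.id ℝ (V 2) + T) ∧ Function.Injective A ∧ w₀ ≠ 0 ∧ 1 ≤ b ∧
      (A ^ b) w₀ = w₀ ∧ (∀ i, 0 < i → i < b → (A ^ i) w₀ ≠ w₀) ∧ (SubOne A ∨ SupOne A)

/-- L1: linear perturbations of the derivative at a periodic point. -/
def S_L1 : Prop :=
  ∀ (n : ℕ) (N : Type u) [TopologicalSpace N] [T2Space N] [CompactSpace N] [ChartedSpace (V n) N]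
    [IsManifold (𝓡 n) ∞ N] (r : ℕ∞), 1 ≤ r → ∀ (f : DiffM n N r) (U : Set (DiffM n N r)),
    IsOpen[strongTop n N r] U → f ∈ U → ∀ (p : N) (m : ℕ), 1 ≤ m → f^[m] p = p →
    (∀ i, 0 < i → i < m → f^[i] p ≠ p) → ∀ ψ ∈ IsManifold.maximalAtlas (𝓡 n) ∞ N, p ∈ ψ.source →
    ∃ κ : ℝ, 0 < κ ∧ ∀ T : V n →L[ℝ] V n, ‖T‖ < κ → ∃ g ∈ U, g^[m] p = p ∧
      (∀ i, 0 < i → i < m → g^[i] p ≠ p) ∧
      fderiv ℝ (fun v => ψ (g^[m] (ψ.symm v))) (ψ p) =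
        (fderiv ℝ (fun v => ψ (f^[m] (ψ.symm v))) (ψ p)) ∘L (ContinuousLinearMap.id ℝ (V n) + T)

/-- CR: creation of many periodic orbits by `C¹`-small perturbations. -/
def S_CR : Prop :=
  ∀ (n : ℕ) (N : Type u) [TopologicalSpace N] [T2Space N] [CompactSpace N] [ChartedSpace (V n) N]
    [IsManifold (𝓡 n) ∞ N] (f : DiffM n N 1) (U : Set (DiffM n N 1)),
    IsOpen[strongTop n N 1] U → f ∈ U → ∀ (p : N) (m : ℕ), 1 ≤ m → f^[m] p = p →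
    (∀ i, 0 < i → i < m → f^[i] p ≠ p) → ∀ χ : OpenPartialHomeomorph N (V n),
    Pool.Agent.W564.SC.GoodChart n N χ p → ∀ A : V n →L[ℝ] V n,
    A = fderiv ℝ (fun v => χ (f^[m] (χ.symm v))) 0 → ∀ (w₀ : V n) (b : ℕ), w₀ ≠ 0 → 1 ≤ b →
    (A ^ b) w₀ = w₀ → (∀ i, 0 < i → i < b → (A ^ i) w₀ ≠ w₀) → ∃ ε : ℝ, 0 < ε ∧
    ∀ s : ℝ, |s - 1| < ε → ∀ M : ℕ, ∃ g ∈ U, ∃ Z : Finset N, Z.card = M ∧ ∀ z ∈ Z,
      g^[m * b] z = z ∧ (∀ i, 0 < i → i < m * b → g^[i] z ≠ z) ∧ z ∈ χ.source ∧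
      fderiv ℝ (fun v => χ (g^[m * b] (χ.symm v))) (χ z) = s • A ^ b

end Pool.Agent.H247.FG
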